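import Pool.Agent.NestConn.NS.Swindle

set_option autoImplicit false

namespace Pool.Agent.Helper534.NS

open Pool.Agent.Helper499.NC
open scoped ENNReal InnerProductSpace ComplexConjugate

noncomputable section

/-- the set of the frozen statement -/
def GG : Set Op :=
  {T : lp (fun _ : ℕ => ℂ) 2 →L[ℂ] lp (fun _ : ℕ => ℂ) 2 |
        ∃ U : (lp (fun _ : ℕ => ℂ) 2 →L[ℂ] lp (fun _ : ℕ => ℂ) 2)ˣ,
          (U : lp (fun _ : ℕ => ℂ) 2 →L[ℂ] lp (fun _ : ℕ => ℂ) 2) = T ∧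
          (∀ i j : ℕ, j < i →
            ((U : lp (fun _ : ℕ => ℂ) 2 →L[ℂ] lp (fun _ : ℕ => ℂ) 2)
              (lp.single 2 j (1 : ℂ)) : ℕ → ℂ) i = 0) ∧
          (∀ i j : ℕ, j < i →
            (((U⁻¹ : (lp (fun _ : ℕ => ℂ) 2 →L[ℂ] lp (fun _ : ℕ => ℂ) 2)ˣ) :
                lp (fun _ : ℕ => ℂ) 2 →L[ℂ] lp (fun _ : ℕ => ℂ) 2)
              (lp.single 2 j (1 : ℂ)) : ℕ → ℂ) i = 0)}

theorem mem_GG (T : Op) : T ∈ GG ↔ IsUnit T ∧ UT T := by
  constructor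
  · rintro ⟨U, rfl, h1, -⟩
    exact ⟨U.isUnit, h1⟩
  · rintro ⟨⟨U, rfl⟩, h⟩
    refine ⟨U, rfl, h, ?_⟩
    exact UT_inv (A' := ((U⁻¹ : Opˣ) : Op)) h (by simp) (by simp)

theorem isUnit_of_near {B : Op} (h : ‖B - 1‖ ≤ 1 / 2) : IsUnit B := by
  have h1 : ‖1 - B‖ < 1 := by
    rw [norm_sub_rev]
    linarith
  have h2 := (Units.oneSub (1 - B) h1).isUnit
  simpa using h2

theorem Triv_mem {n : ℕ} {A : Op} (h : Triv n A) : A ∈ GG := by
  rw [mem_GG]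
  refine ⟨?_, Triv_UT h⟩
  induction n generalizing A with
  | zero => rw [show A = 1 from h]; exact isUnit_one
  | succ n ih =>
    obtain ⟨X, C, hX, hC, rfl⟩ := h
    exact (isUnit_of_near hX.2).mul (ih hC)

/-- every `Triv n` operator is joined to the identity inside the group -/
theorem Triv_joined {n : ℕ} {A : Op} (h : Triv n A) : JoinedIn GG 1 A := by
  have key : ∃ γ : ℝ → Op, Continuous γ ∧ γ 0 = 1 ∧ γ 1 = A ∧
      ∀ t, 0 ≤ t → t ≤ 1 → Triv n (γ t) := by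
    induction n generalizing A with
    | zero => exact ⟨fun _ => 1, continuous_const, rfl, (show A = 1 from h).symm, fun _ _ _ => rfl⟩
    | succ n ih =>
      obtain ⟨X, C, hX, hC, rfl⟩ := h
      obtain ⟨γ, h1, h2, h3, h4⟩ := ih hC
      refine ⟨fun t => (1 + (t : ℂ) • (X - 1)) * γ t, ?_, ?_, ?_, ?_⟩
      · apply Continuous.mul _ h1
        exact continuous_const.add ((Complex.continuous_ofReal).smul continuous_const)
      · simp [h2]
      · simp [h3]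
      · intro t t0 t1
        refine ⟨1 + (t : ℂ) • (X - 1), γ t, ⟨?_, ?_⟩, h4 t t0 t1, rfl⟩
        · exact UT_add UT_one (UT_smul _ (UT_sub hX.1 UT_one))
        · rw [add_sub_cancel_left, norm_smul, Complex.norm_real, Real.norm_of_nonneg t0]
          calc t * ‖X - 1‖ ≤ 1 * ‖X - 1‖ := by gcongr
            _ ≤ 1 / 2 := by rw [one_mul]; exact hX.2
  obtain ⟨γ, h1, h2, h3, h4⟩ := key
  exact JoinedIn.ofLine h1.continuousOn h2 h3 (by
    rintro _ ⟨t, ht, rfl⟩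
    exact Triv_mem (h4 t ht.1 ht.2))

/-- **Conclusion**: the group is connected, given the move lemma. -/
theorem connected_of_move
    (move : ∃ (N : ℕ) (hN : 0 < N) (κ₀ : ℝ), (∀ κ : ℝ, ∃ n : ℕ, ∀ A : Op, Cls κ A →
      ∃ A' g : Op, Cls κ₀ A' ∧ BS N (A' - 1) ∧ Triv n g ∧
      A = g * emb (phiF N) (phiF_inj hN) A')) :
    IsConnected GG := by
  obtain ⟨N, hN, κ₀, hmove⟩ := move
  obtain ⟨n₀, hn₀⟩ := hmove κ₀
  obtain ⟨n₁, hn₁⟩ := swindle N hN κ₀ n₀ hn₀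
  have hall : ∀ A ∈ GG, JoinedIn GG 1 A := by
    intro A hA
    obtain ⟨⟨U, hU⟩, hUT⟩ := (mem_GG A).1 hA
    obtain ⟨n, hn⟩ := hmove (max ‖A‖ ‖((U⁻¹ : Opˣ) : Op)‖)
    have hcls : Cls (max ‖A‖ ‖((U⁻¹ : Opˣ) : Op)‖) A :=
      ⟨hUT, le_max_left _ _, ((U⁻¹ : Opˣ) : Op), by rw [← hU]; simp, by rw [← hU]; simp,
        le_max_right _ _⟩
    obtain ⟨A', g, h1, h2, h3, h4⟩ := hn A hcls
    have h5 := Triv_mul h3 (hn₁ A' h1)
    rw [← h4] at h5
    exact Triv_joined h5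
  have h1 : (1 : Op) ∈ GG := (mem_GG 1).2 ⟨isUnit_one, UT_one⟩
  have hp : IsPathConnected GG := ⟨1, h1, fun {y} hy => hall y hy⟩
  exact hp.isConnected

end

end Pool.Agent.Helper534.NS
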