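import Pool.Agent.NestConn.NS.Fam

set_option autoImplicit false

namespace Pool.Agent.Helper534.NS

open Pool.Agent.Helper499.NC
open scoped ENNReal InnerProductSpace ComplexConjugate

noncomputable section

theorem fd_memlp (B : ℕ → Op) (C : ℝ) (h : ∀ l, ‖B l‖ ≤ C) (x : Ks) :
    Memℓp (fun l => B l ((x : ℕ → Hs) l)) 2 := by
  have hC : 0 ≤ C := le_trans (norm_nonneg _) (h 0)
  apply memℓp_gen
  have hv : Summable (fun n => ‖(x : ℕ → Hs) n‖ ^ (2 : ℝ≥0∞).toReal) :=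
    (memℓp_gen_iff (by norm_num)).1 (lp.memℓp x)
  refine Summable.of_nonneg_of_le (fun n => by positivity) ?_ (hv.mul_left (C ^ (2:ℝ≥0∞).toReal))
  intro n
  rw [← Real.mul_rpow hC (norm_nonneg _)]
  gcongr
  exact ((B n).le_opNorm _).trans (by gcongr; exact h n)

/-- the family operator -/
def fdL (B : ℕ → Op) (C : ℝ) (h : ∀ l, ‖B l‖ ≤ C) : Ks →L[ℂ] Ks :=
  LinearMap.mkContinuous
    { toFun := fun x => (⟨fun l => B l ((x : ℕ → Hs) l), fd_memlp B C h x⟩ : Ks)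
      map_add' := by
        intro v w
        apply lp.ext
        funext n
        show B n (((v + w : Ks) : ℕ → Hs) n) = B n ((v : ℕ → Hs) n) + B n ((w : ℕ → Hs) n)
        rw [lp.coeFn_add, Pi.add_apply, map_add]
      map_smul' := by
        intro c v
        apply lp.ext
        funext n
        show B n (((c • v : Ks) : ℕ → Hs) n) = c • B n ((v : ℕ → Hs) n)
        rw [lp.coeFn_smul, Pi.smul_apply, map_smul] } C (by
      intro v
      have hC : 0 ≤ C := le_trans (norm_nonneg _) (h 0)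
      refine lp.norm_le_of_forall_sum_le (p := 2) (by norm_num) (by positivity) ?_
      intro s
      have h2 : (2 : ℝ≥0∞).toReal = 2 := by norm_num
      have hv := lp.sum_rpow_le_norm_rpow (p := 2) (by norm_num) v s
      rw [h2] at hv ⊢
      rw [Real.mul_rpow hC (norm_nonneg _)]
      calc ∑ i ∈ s, ‖((⟨fun l => B l ((v : ℕ → Hs) l), fd_memlp B C h v⟩ : Ks) : ℕ → Hs) i‖ ^ (2:ℝ)
          ≤ ∑ i ∈ s, C ^ (2:ℝ) * ‖(v : ℕ → Hs) i‖ ^ (2:ℝ) := by
            apply Finset.sum_le_sum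
            intro i _
            show ‖B i ((v : ℕ → Hs) i)‖ ^ (2:ℝ) ≤ _
            rw [← Real.mul_rpow hC (norm_nonneg _)]
            gcongr
            exact ((B i).le_opNorm _).trans (by gcongr; exact h i)
        _ = C ^ (2:ℝ) * ∑ i ∈ s, ‖(v : ℕ → Hs) i‖ ^ (2:ℝ) := by rw [Finset.mul_sum]
        _ ≤ C ^ (2:ℝ) * ‖v‖ ^ (2:ℝ) := by gcongr)

/-- uniformly bounded families -/
def Bd (B : ℕ → Op) : Prop := ∃ C : ℝ, ∀ l, ‖B l‖ ≤ C

/-- the family operator (zero if the family is unbounded) -/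
def fd (B : ℕ → Op) : Ks →L[ℂ] Ks :=
  open Classical in
  if h : Bd B then fdL B h.choose h.choose_spec else 0

theorem fd_apply {B : ℕ → Op} (h : Bd B) (x : Ks) (l : ℕ) :
    (fd B x : ℕ → Hs) l = B l ((x : ℕ → Hs) l) := by
  unfold fd
  rw [dif_pos h]
  rfl

theorem norm_fd_le {B : ℕ → Op} {C : ℝ} (h : ∀ l, ‖B l‖ ≤ C) : ‖fd B‖ ≤ C := by
  have hC : 0 ≤ C := le_trans (norm_nonneg _) (h 0)
  have he : fd B = fdL B C h := by
    ext v : 1
    apply lp.ext
    funext n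
    rw [fd_apply ⟨C, h⟩]
    rfl
  rw [he]
  exact LinearMap.mkContinuous_norm_le _ hC _

theorem Bd.mul {B B' : ℕ → Op} (h : Bd B) (h' : Bd B') : Bd (fun l => B l * B' l) := by
  obtain ⟨C, hC⟩ := h
  obtain ⟨C', hC'⟩ := h'
  refine ⟨C * C', fun l => (norm_mul_le _ _).trans ?_⟩
  have hC0 : 0 ≤ C := le_trans (norm_nonneg _) (hC 0)
  exact mul_le_mul (hC l) (hC' l) (norm_nonneg _) hC0

theorem Bd.sub {B B' : ℕ → Op} (h : Bd B) (h' : Bd B') : Bd (fun l => B l - B' l) := by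
  obtain ⟨C, hC⟩ := h
  obtain ⟨C', hC'⟩ := h'
  exact ⟨C + C', fun l => (norm_sub_le _ _).trans (add_le_add (hC l) (hC' l))⟩

theorem Bd.add {B B' : ℕ → Op} (h : Bd B) (h' : Bd B') : Bd (fun l => B l + B' l) := by
  obtain ⟨C, hC⟩ := h
  obtain ⟨C', hC'⟩ := h'
  exact ⟨C + C', fun l => (norm_add_le _ _).trans (add_le_add (hC l) (hC' l))⟩

theorem Bd.one : Bd (fun _ => 1) := ⟨1, fun _ => by
  refine ContinuousLinearMap.opNorm_le_bound _ zero_le_one fun x => ?_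
  simp⟩

theorem Bd.const (A : Op) : Bd (fun _ => A) := ⟨‖A‖, fun _ => le_rfl⟩

theorem fd_mul {B B' : ℕ → Op} (h : Bd B) (h' : Bd B') : fd (fun l => B l * B' l) = fd B * fd B' := by
  ext v : 1
  apply lp.ext
  funext n
  rw [fd_apply (h.mul h')]
  show B n (B' n _) = (fd B (fd B' v) : ℕ → Hs) n
  rw [fd_apply h, fd_apply h']

theorem fd_sub {B B' : ℕ → Op} (h : Bd B) (h' : Bd B') : fd (fun l => B l - B' l) = fd B - fd B' := by
  ext v : 1
  apply lp.ext
  funext n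
  rw [fd_apply (h.sub h')]
  show (B n - B' n) _ = ((fd B v - fd B' v : Ks) : ℕ → Hs) n
  rw [lp.coeFn_sub, Pi.sub_apply, fd_apply h, fd_apply h']
  rfl

theorem fd_add {B B' : ℕ → Op} (h : Bd B) (h' : Bd B') : fd (fun l => B l + B' l) = fd B + fd B' := by
  ext v : 1
  apply lp.ext
  funext n
  rw [fd_apply (h.add h')]
  show (B n + B' n) _ = ((fd B v + fd B' v : Ks) : ℕ → Hs) n
  rw [lp.coeFn_add, Pi.add_apply, fd_apply h, fd_apply h']
  rfl

theorem fd_one : fd (fun _ => 1) = 1 := by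
  ext v : 1
  apply lp.ext
  funext n
  rw [fd_apply Bd.one]
  rfl

theorem fd_single {B : ℕ → Op} (h : Bd B) (l : ℕ) (x : Hs) :
    fd B (lp.single 2 l x) = lp.single 2 l (B l x) := by
  apply lp.ext
  funext n
  rw [fd_apply h, lp.single_apply, lp.single_apply]
  by_cases hn : n = l
  · subst hn
    simp
  · rw [Pi.single_eq_of_ne hn, Pi.single_eq_of_ne hn, map_zero]

/-- the direct sum of the family `B`, the `l`-th member acting on the positions `p l m` -/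
def ds (p : ℕ → ℕ → ℕ) (hp : Inj p) (B : ℕ → Op) : Op :=
  1 + (J p hp) ∘L (fd B - 1) ∘L (R p hp)

/-- general compression of a family operator along `W`, with left inverse `W'` -/
def Ad (W : Ks →L[ℂ] Hs) (W' : Hs →L[ℂ] Ks) (X : Ks →L[ℂ] Ks) : Op :=
  1 + W ∘L (X - 1) ∘L W'

theorem ds_eq (p : ℕ → ℕ → ℕ) (hp : Inj p) (B : ℕ → Op) :
    ds p hp B = Ad (J p hp) (R p hp) (fd B) := rfl

theorem Ad_one (W : Ks →L[ℂ] Hs) (W' : Hs →L[ℂ] Ks) : Ad W W' 1 = 1 := by
  unfold Ad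
  simp

theorem Ad_mul (W : Ks →L[ℂ] Hs) (W' : Hs →L[ℂ] Ks) (h : W' ∘L W = 1) (X Y : Ks →L[ℂ] Ks) :
    Ad W W' (X * Y) = Ad W W' X * Ad W W' Y := by
  unfold Ad
  have h1 : ∀ x, W' (W x) = x := fun x => by
    rw [← ContinuousLinearMap.comp_apply, h]
    rfl
  ext v : 1
  simp only [ContinuousLinearMap.add_apply, ContinuousLinearMap.mul_apply,
    ContinuousLinearMap.comp_apply, ContinuousLinearMap.sub_apply,
    ContinuousLinearMap.one_apply, map_add, map_sub, h1]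
  abel

theorem norm_Ad_sub_one_le (W : Ks →L[ℂ] Hs) (W' : Hs →L[ℂ] Ks) (hW : ‖W‖ ≤ 1) (hW' : ‖W'‖ ≤ 1)
    (X : Ks →L[ℂ] Ks) : ‖Ad W W' X - 1‖ ≤ ‖X - 1‖ := by
  unfold Ad
  rw [add_sub_cancel_left]
  calc ‖W ∘L (X - 1) ∘L W'‖ ≤ ‖W‖ * (‖X - 1‖ * ‖W'‖) :=
        (ContinuousLinearMap.opNorm_comp_le _ _).trans
          (mul_le_mul_of_nonneg_left (ContinuousLinearMap.opNorm_comp_le _ _) (norm_nonneg _))
    _ ≤ 1 * (‖X - 1‖ * 1) := by gcongr
    _ = ‖X - 1‖ := by ring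

theorem ds_mul (p : ℕ → ℕ → ℕ) (hp : Inj p) {B B' : ℕ → Op} (h : Bd B) (h' : Bd B') :
    ds p hp (fun l => B l * B' l) = ds p hp B * ds p hp B' := by
  rw [ds_eq, ds_eq, ds_eq, fd_mul h h', Ad_mul _ _ (R_J p hp)]

theorem ds_one (p : ℕ → ℕ → ℕ) (hp : Inj p) : ds p hp (fun _ => 1) = 1 := by
  rw [ds_eq, fd_one, Ad_one]

theorem norm_ds_sub_one_le (p : ℕ → ℕ → ℕ) (hp : Inj p) {B : ℕ → Op} {C : ℝ}
    (h : ∀ l, ‖B l - 1‖ ≤ C) : ‖ds p hp B - 1‖ ≤ C := by
  have hB1 : Bd (fun l => B l - 1) := ⟨C, h⟩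
  have hB : Bd B := by
    have := hB1.add Bd.one
    simpa using this
  rw [ds_eq]
  refine (norm_Ad_sub_one_le _ _ (norm_J_le p hp) (norm_R_le p hp) _).trans ?_
  have h2 : fd B - 1 = fd (fun l => B l - 1) := by
    rw [fd_sub hB Bd.one, fd_one]
  rw [h2]
  exact norm_fd_le h

/-- the action of a direct sum on the basis -/
theorem ds_ev_self (p : ℕ → ℕ → ℕ) (hp : Inj p) {B : ℕ → Op} (h : Bd B) (l m : ℕ) :
    ds p hp B (ev (p l m)) = V (p l) (hp.row l) (B l (ev m)) := by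
  unfold ds
  simp only [ContinuousLinearMap.add_apply, ContinuousLinearMap.comp_apply,
    ContinuousLinearMap.sub_apply, ContinuousLinearMap.one_apply]
  rw [R_ev_self, fd_single h, map_sub, J_single, J_single, V_ev]
  abel

theorem ds_ev_ne (p : ℕ → ℕ → ℕ) (hp : Inj p) (B : ℕ → Op) (n : ℕ) (hn : ∀ l m, p l m ≠ n) :
    ds p hp B (ev n) = ev n := by
  unfold ds
  simp only [ContinuousLinearMap.add_apply, ContinuousLinearMap.comp_apply,
    ContinuousLinearMap.sub_apply, ContinuousLinearMap.one_apply]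
  rw [R_ev_ne p hp n hn]
  simp

theorem op_ext_ev {X Y : Op} (h : ∀ n, X (ev n) = Y (ev n)) : X = Y := by
  apply op_ext
  intro i j
  unfold ent
  rw [h]

/-- direct sums of upper triangular operators at increasing positions are upper triangular -/
theorem UT_ds (p : ℕ → ℕ → ℕ) (hp : Inj p) (hmono : ∀ l, StrictMono (p l)) {B : ℕ → Op}
    (h : Bd B) (hU : ∀ l, UT (B l)) : UT (ds p hp B) := by
  intro i j hij
  unfold ent
  by_cases hj : ∃ l m, p l m = j
  · obtain ⟨l, m, rfl⟩ := hj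
    rw [ds_ev_self p hp h]
    by_cases hi : ∃ k, p l k = i
    · obtain ⟨k, rfl⟩ := hi
      rw [V_apply_eq]
      have hmk : m < k := (hmono l).lt_iff_lt.1 hij
      exact hU l k m hmk
    · push Not at hi
      exact V_apply_ne _ _ _ _ hi
  · push Not at hj
    rw [ds_ev_ne p hp B j hj, ev_apply, if_neg (by omega)]

end

end Pool.Agent.Helper534.NS
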