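import Pool.Agent.NestConn.Base

set_option autoImplicit false

namespace Pool.Agent.Helper534.NS

open Pool.Agent.Helper499.NC
open scoped ENNReal InnerProductSpace ComplexConjugate

noncomputable section

theorem orthonormal_ev : Orthonormal ℂ ev := by
  rw [orthonormal_iff_ite]
  intro i j
  rw [inner_ev_left, ev_apply]

/-- The isometry of l2(N) that sends the basis vector `e_k` to `e_{φ k}`. -/
def V (φ : ℕ → ℕ) (hφ : Function.Injective φ) : Hs →ₗᵢ[ℂ] Hs :=
  (orthonormal_ev.comp φ hφ).orthogonalFamily.linearIsometry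

theorem V_ev (φ : ℕ → ℕ) (hφ : Function.Injective φ) (k : ℕ) : V φ hφ (ev k) = ev (φ k) := by
  unfold V
  have h := (orthonormal_ev.comp φ hφ).orthogonalFamily.linearIsometry_apply_single (i := k)
    (1 : ℂ)
  unfold ev at h ⊢
  rw [h]
  simp

theorem V_hasSum (φ : ℕ → ℕ) (hφ : Function.Injective φ) (v : Hs) :
    HasSum (fun k => (v : ℕ → ℂ) k • ev (φ k)) (V φ hφ v) := by
  have h := (hasSum_ev v).mapL (V φ hφ).toContinuousLinearMap
  refine h.congr_fun ?_ |> fun h' => h'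
  intro k
  simp [V_ev]

/-- coordinates of `V φ v` -/
theorem V_apply_eq (φ : ℕ → ℕ) (hφ : Function.Injective φ) (v : Hs) (k : ℕ) :
    (V φ hφ v : ℕ → ℂ) (φ k) = (v : ℕ → ℂ) k := by
  rw [← inner_ev_left, ← V_ev φ hφ k, LinearIsometry.inner_map_map, inner_ev_left]

theorem V_apply_ne (φ : ℕ → ℕ) (hφ : Function.Injective φ) (v : Hs) (n : ℕ)
    (hn : ∀ k, φ k ≠ n) : (V φ hφ v : ℕ → ℂ) n = 0 := by
  rw [← inner_ev_left]
  have h := (V_hasSum φ hφ v).mapL (innerSL ℂ (ev n))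
  have h0 : (fun k => innerSL ℂ (ev n) ((v : ℕ → ℂ) k • ev (φ k))) = fun _ => 0 := by
    funext k
    rw [innerSL_apply_apply, inner_smul_right, inner_ev_left, ev_apply, if_neg (hn k).symm,
      mul_zero]
  rw [h0] at h
  exact (h.unique hasSum_zero)

/-- The Hilbert space direct sum of countably many copies of l2(N). -/
abbrev Ks := lp (fun _ : ℕ => Hs) 2

/-- double indexed positions -/
abbrev Inj (p : ℕ → ℕ → ℕ) : Prop := ∀ l m l' m', p l m = p l' m' → l = l' ∧ m = m'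

theorem Inj.row {p : ℕ → ℕ → ℕ} (hp : Inj p) (l : ℕ) : Function.Injective (p l) :=
  fun m m' h => (hp l m l m' h).2

theorem V_orth {φ ψ : ℕ → ℕ} (hφ : Function.Injective φ) (hψ : Function.Injective ψ)
    (h : ∀ k k', φ k ≠ ψ k') (v w : Hs) : inner ℂ (V φ hφ v) (V ψ hψ w) = 0 := by
  have h1 := (V_hasSum ψ hψ w).mapL (innerSL ℂ (V φ hφ v))
  have h0 : (fun k => innerSL ℂ (V φ hφ v) ((w : ℕ → ℂ) k • ev (ψ k))) = fun _ => 0 := by
    funext k
    rw [innerSL_apply_apply, inner_smul_right, inner_ev_right,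
      V_apply_ne φ hφ v (ψ k) (fun k' => h k' k), map_zero, mul_zero]
  rw [h0] at h1
  exact h1.unique hasSum_zero

theorem orthFam (p : ℕ → ℕ → ℕ) (hp : Inj p) :
    OrthogonalFamily ℂ (fun _ : ℕ => Hs) (fun l => V (p l) (hp.row l)) := by
  intro l l' hl v w
  exact V_orth _ _ (fun k k' h => hl (hp l k l' k' h).1) v w

/-- the isometry `Ks → Hs` that sends `e_m` in the `l`-th copy to `e_{p l m}` -/
def J (p : ℕ → ℕ → ℕ) (hp : Inj p) : Ks →L[ℂ] Hs :=
  (orthFam p hp).linearIsometry.toContinuousLinearMap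

theorem J_single (p : ℕ → ℕ → ℕ) (hp : Inj p) (l : ℕ) (x : Hs) :
    J p hp (lp.single 2 l x) = V (p l) (hp.row l) x := by
  unfold J
  exact (orthFam p hp).linearIsometry_apply_single (i := l) x

theorem norm_J (p : ℕ → ℕ → ℕ) (hp : Inj p) (x : Ks) : ‖J p hp x‖ = ‖x‖ :=
  (orthFam p hp).linearIsometry.norm_map x

theorem norm_J_le (p : ℕ → ℕ → ℕ) (hp : Inj p) : ‖J p hp‖ ≤ 1 := by
  refine ContinuousLinearMap.opNorm_le_bound _ zero_le_one fun x => ?_
  rw [norm_J, one_mul]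

/-- the adjoint of `J` -/
def R (p : ℕ → ℕ → ℕ) (hp : Inj p) : Hs →L[ℂ] Ks := ContinuousLinearMap.adjoint (J p hp)

theorem norm_R_le (p : ℕ → ℕ → ℕ) (hp : Inj p) : ‖R p hp‖ ≤ 1 := by
  unfold R
  rw [LinearIsometryEquiv.norm_map]
  exact norm_J_le p hp

theorem R_apply (p : ℕ → ℕ → ℕ) (hp : Inj p) (v : Hs) (l m : ℕ) :
    ((R p hp v : ℕ → Hs) l : ℕ → ℂ) m = (v : ℕ → ℂ) (p l m) := by
  rw [← inner_ev_left, ← inner_ev_left]
  have h1 : inner ℂ (ev m) ((R p hp v : ℕ → Hs) l) = inner ℂ (lp.single 2 l (ev m) : Ks) (R p hp v) :=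
    (lp.inner_single_left l (ev m) (R p hp v)).symm
  rw [h1]
  unfold R
  rw [ContinuousLinearMap.adjoint_inner_right, J_single, V_ev]

theorem R_J (p : ℕ → ℕ → ℕ) (hp : Inj p) : (R p hp) ∘L (J p hp) = 1 := by
  unfold R
  have h : ∀ x y : Ks, inner ℂ x ((ContinuousLinearMap.adjoint (J p hp) ∘L (J p hp)) y) = inner ℂ x y := by
    intro x y
    rw [ContinuousLinearMap.comp_apply, ContinuousLinearMap.adjoint_inner_right]
    exact (orthFam p hp).linearIsometry.inner_map_map x y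
  ext y : 1
  exact ext_inner_left ℂ fun x => by
    rw [h]
    rfl

theorem Ks_ext {x y : Ks} (h : ∀ l m, ((x : ℕ → Hs) l : ℕ → ℂ) m = ((y : ℕ → Hs) l : ℕ → ℂ) m) :
    x = y := by
  apply lp.ext
  funext l
  apply lp.ext
  funext m
  exact h l m

theorem R_ev_self (p : ℕ → ℕ → ℕ) (hp : Inj p) (l m : ℕ) :
    R p hp (ev (p l m)) = lp.single 2 l (ev m) := by
  apply Ks_ext
  intro l' m'
  rw [R_apply, ev_apply, lp.single_apply]
  by_cases h : l' = l
  · subst h
    simp only [Pi.single_eq_same]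
    rw [ev_apply]
    by_cases h2 : m' = m
    · subst h2; simp
    · rw [if_neg h2, if_neg]
      intro h3
      exact h2 (hp _ _ _ _ h3).2
  · rw [Pi.single_eq_of_ne h, if_neg]
    · rfl
    · intro h3
      exact h (hp _ _ _ _ h3).1

theorem R_ev_ne (p : ℕ → ℕ → ℕ) (hp : Inj p) (n : ℕ) (hn : ∀ l m, p l m ≠ n) :
    R p hp (ev n) = 0 := by
  apply Ks_ext
  intro l' m'
  rw [R_apply, ev_apply, if_neg (hn l' m')]
  rfl

theorem R_J_orth (p q : ℕ → ℕ → ℕ) (hp : Inj p) (hq : Inj q) (h : ∀ l m l' m', p l m ≠ q l' m') :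
    (R p hp) ∘L (J q hq) = 0 := by
  ext x : 1
  apply Ks_ext
  intro l m
  rw [ContinuousLinearMap.comp_apply, R_apply, ← inner_ev_left]
  have h1 : inner ℂ (ev (p l m)) (J q hq x) = inner ℂ (R q hq (ev (p l m))) x := by
    unfold R
    rw [ContinuousLinearMap.adjoint_inner_left]
  rw [h1, R_ev_ne q hq (p l m) (fun l' m' h' => h l m l' m' h'.symm), inner_zero_left]
  rfl

end

end Pool.Agent.Helper534.NS
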