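import Pool.Agent.NestConn.NS.Rot

set_option autoImplicit false

namespace Pool.Agent.Helper534.NS

open Pool.Agent.Helper499.NC
open scoped ENNReal InnerProductSpace ComplexConjugate

noncomputable section

/-- `A` acting on the positions `φ k`, identity elsewhere -/
def emb (φ : ℕ → ℕ) (hφ : Function.Injective φ) (A : Op) : Op :=
  1 + (V φ hφ).toContinuousLinearMap ∘L (A - 1) ∘L
    (ContinuousLinearMap.adjoint (V φ hφ).toContinuousLinearMap)

theorem adjV_ev_self (φ : ℕ → ℕ) (hφ : Function.Injective φ) (k : ℕ) :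
    ContinuousLinearMap.adjoint (V φ hφ).toContinuousLinearMap (ev (φ k)) = ev k := by
  apply lp.ext
  funext m
  rw [← inner_ev_left, ContinuousLinearMap.adjoint_inner_right]
  show inner ℂ (V φ hφ (ev m)) (ev (φ k)) = _
  rw [V_ev, inner_ev_left, ev_apply, ev_apply]
  by_cases h : m = k
  · subst h; simp
  · rw [if_neg h, if_neg (fun h' => h (hφ h'))]

theorem adjV_ev_ne (φ : ℕ → ℕ) (hφ : Function.Injective φ) (n : ℕ) (hn : ∀ k, φ k ≠ n) :
    ContinuousLinearMap.adjoint (V φ hφ).toContinuousLinearMap (ev n) = 0 := by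
  apply lp.ext
  funext m
  rw [← inner_ev_left, ContinuousLinearMap.adjoint_inner_right]
  show inner ℂ (V φ hφ (ev m)) (ev n) = _
  rw [V_ev, inner_ev_left, ev_apply, if_neg (hn m)]
  rfl

theorem emb_ev_self (φ : ℕ → ℕ) (hφ : Function.Injective φ) (A : Op) (k : ℕ) :
    emb φ hφ A (ev (φ k)) = V φ hφ (A (ev k)) := by
  unfold emb
  simp only [ContinuousLinearMap.add_apply, ContinuousLinearMap.comp_apply,
    ContinuousLinearMap.sub_apply, ContinuousLinearMap.one_apply]
  rw [adjV_ev_self, map_sub]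
  show ev (φ k) + (V φ hφ (A (ev k)) - V φ hφ (ev k)) = _
  rw [V_ev]
  abel

theorem emb_ev_ne (φ : ℕ → ℕ) (hφ : Function.Injective φ) (A : Op) (n : ℕ) (hn : ∀ k, φ k ≠ n) :
    emb φ hφ A (ev n) = ev n := by
  unfold emb
  simp only [ContinuousLinearMap.add_apply, ContinuousLinearMap.comp_apply,
    ContinuousLinearMap.sub_apply, ContinuousLinearMap.one_apply]
  rw [adjV_ev_ne φ hφ n hn]
  simp

theorem V_comp (φ ψ : ℕ → ℕ) (hφ : Function.Injective φ) (hψ : Function.Injective ψ)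
    (h : Function.Injective (fun k => φ (ψ k))) (x : Hs) :
    V φ hφ (V ψ hψ x) = V (fun k => φ (ψ k)) h x := by
  have h1 := (V_hasSum ψ hψ x).mapL (V φ hφ).toContinuousLinearMap
  have h2 : (fun k => (V φ hφ).toContinuousLinearMap ((x : ℕ → ℂ) k • ev (ψ k)))
      = fun k => (x : ℕ → ℂ) k • ev (φ (ψ k)) := by
    funext k
    rw [map_smul]
    show _ • V φ hφ (ev (ψ k)) = _
    rw [V_ev]
  rw [h2] at h1
  exact h1.unique (V_hasSum _ h x)

theorem norm_V (φ : ℕ → ℕ) (hφ : Function.Injective φ) :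
    ‖(V φ hφ).toContinuousLinearMap‖ ≤ 1 :=
  (V φ hφ).norm_toContinuousLinearMap_le

theorem norm_emb_sub_one_le (φ : ℕ → ℕ) (hφ : Function.Injective φ) (A : Op) :
    ‖emb φ hφ A - 1‖ ≤ ‖A - 1‖ := by
  unfold emb
  rw [add_sub_cancel_left]
  have h1 := norm_V φ hφ
  have h2 : ‖ContinuousLinearMap.adjoint (V φ hφ).toContinuousLinearMap‖ ≤ 1 := by
    rw [LinearIsometryEquiv.norm_map]; exact h1
  calc ‖(V φ hφ).toContinuousLinearMap ∘L (A - 1) ∘L
        (ContinuousLinearMap.adjoint (V φ hφ).toContinuousLinearMap)‖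
      ≤ ‖(V φ hφ).toContinuousLinearMap‖ * (‖A - 1‖ *
          ‖ContinuousLinearMap.adjoint (V φ hφ).toContinuousLinearMap‖) :=
        (ContinuousLinearMap.opNorm_comp_le _ _).trans
          (mul_le_mul_of_nonneg_left (ContinuousLinearMap.opNorm_comp_le _ _) (norm_nonneg _))
    _ ≤ 1 * (‖A - 1‖ * 1) := by gcongr
    _ = ‖A - 1‖ := by ring

theorem Inj_comp {p : ℕ → ℕ → ℕ} (hp : Inj p) {φ : ℕ → ℕ} (hφ : Function.Injective φ) :
    Inj (fun l m => p l (φ m)) := by
  intro l m l' m' h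
  obtain ⟨h1, h2⟩ := hp _ _ _ _ h
  exact ⟨h1, hφ h2⟩

theorem ds_emb (p : ℕ → ℕ → ℕ) (hp : Inj p) (φ : ℕ → ℕ) (hφ : Function.Injective φ)
    {B : ℕ → Op} (hB : Bd B) :
    ds p hp (fun l => emb φ hφ (B l)) = ds (fun l m => p l (φ m)) (Inj_comp hp hφ) B := by
  have hbE : Bd (fun l => emb φ hφ (B l)) := by
    obtain ⟨C, hC⟩ := hB
    refine ⟨C + 1 + 1, fun l => ?_⟩
    calc ‖emb φ hφ (B l)‖ = ‖(emb φ hφ (B l) - 1) + 1‖ := by rw [sub_add_cancel]
      _ ≤ ‖emb φ hφ (B l) - 1‖ + ‖(1 : Op)‖ := norm_add_le _ _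
      _ ≤ ‖B l - 1‖ + 1 := add_le_add (norm_emb_sub_one_le _ _ _) norm_one_le
      _ ≤ (C + 1) + 1 := by
          gcongr
          exact (norm_sub_le _ _).trans (add_le_add (hC l) norm_one_le)
  apply op_ext_ev
  intro n
  by_cases hn : ∃ l m, p l m = n
  · obtain ⟨l, m, rfl⟩ := hn
    rw [ds_ev_self p hp hbE]
    by_cases hm : ∃ k, φ k = m
    · obtain ⟨k, rfl⟩ := hm
      rw [emb_ev_self, ds_ev_self (fun l m => p l (φ m)) (Inj_comp hp hφ) hB l k]
      exact V_comp _ _ _ _ _ _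
    · push Not at hm
      rw [emb_ev_ne φ hφ _ m hm, V_ev, ds_ev_ne]
      intro l' k h
      exact hm k (hp _ _ _ _ h).2
  · push Not at hn
    rw [ds_ev_ne p hp _ n hn, ds_ev_ne]
    intro l m
    exact hn l (φ m)

theorem ds_head (p : ℕ → ℕ → ℕ) (hp : Inj p) (A : Op) :
    ds p hp (fun l => if l = 0 then A else 1) = emb (p 0) (hp.row 0) A := by
  have hb : Bd (fun l => if l = 0 then A else 1) := by
    refine ⟨max ‖A‖ 1, fun l => ?_⟩
    show ‖if l = 0 then A else 1‖ ≤ _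
    split_ifs
    · exact le_max_left _ _
    · exact norm_one_le.trans (le_max_right _ _)
  apply op_ext_ev
  intro n
  by_cases hn : ∃ l m, p l m = n
  · obtain ⟨l, m, rfl⟩ := hn
    rw [ds_ev_self p hp hb]
    by_cases hl : l = 0
    · subst hl
      rw [if_pos rfl, emb_ev_self]
    · rw [if_neg hl, ContinuousLinearMap.one_apply, V_ev, emb_ev_ne]
      intro k h
      exact hl (hp _ _ _ _ h).1.symm
  · push Not at hn
    rw [ds_ev_ne p hp _ n hn, emb_ev_ne]
    exact hn 0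

theorem Inj_succ {p : ℕ → ℕ → ℕ} (hp : Inj p) : Inj (fun l m => p (l + 1) m) := by
  intro l m l' m' h
  obtain ⟨h1, h2⟩ := hp _ _ _ _ h
  exact ⟨by omega, h2⟩

theorem ds_tail (p : ℕ → ℕ → ℕ) (hp : Inj p) {B : ℕ → Op} (hB : Bd B) :
    ds p hp (fun l => if l = 0 then 1 else B l) =
      ds (fun l m => p (l + 1) m) (Inj_succ hp) (fun l => B (l + 1)) := by
  have hb : Bd (fun l => if l = 0 then 1 else B l) := by
    obtain ⟨C, hC⟩ := hB
    refine ⟨max C 1, fun l => ?_⟩
    show ‖if l = 0 then 1 else B l‖ ≤ _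
    split_ifs
    · exact norm_one_le.trans (le_max_right _ _)
    · exact (hC l).trans (le_max_left _ _)
  have hb' : Bd (fun l => B (l + 1)) := by
    obtain ⟨C, hC⟩ := hB
    exact ⟨C, fun l => hC _⟩
  apply op_ext_ev
  intro n
  by_cases hn : ∃ l m, p l m = n
  · obtain ⟨l, m, rfl⟩ := hn
    rw [ds_ev_self p hp hb]
    rcases l with _ | l
    · rw [if_pos rfl, ContinuousLinearMap.one_apply, V_ev, ds_ev_ne]
      intro l' k h
      have := (hp _ _ _ _ h).1
      omega
    · rw [if_neg (by omega), ds_ev_self (fun l m => p (l + 1) m) (Inj_succ hp) hb' l m]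
  · push Not at hn
    rw [ds_ev_ne p hp _ n hn, ds_ev_ne]
    intro l m
    exact hn (l + 1) m

/-! ### positions -/

/-- slot `r` of block `k` goes to slot `r` of block `4 k` -/
def phiF (N m : ℕ) : ℕ := 4 * N * (m / N) + m % N

def sp (c l k : ℕ) : ℕ := 4 ^ l * (4 * k + c) - 1

def pos (N c l m : ℕ) : ℕ := N * sp c l (m / N) + m % N

theorem four_unique {l l' k k' c c' : ℕ} (hc : 1 ≤ c) (hc3 : c ≤ 3) (hc' : 1 ≤ c') (hc3' : c' ≤ 3)
    (h : 4 ^ l * (4 * k + c) = 4 ^ l' * (4 * k' + c')) : l = l' ∧ k = k' ∧ c = c' := by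
  rcases lt_trichotomy l l' with hl | hl | hl
  · exfalso
    obtain ⟨d, rfl⟩ := Nat.exists_eq_add_of_lt hl
    have h2 : 4 * k + c = 4 * (4 ^ d * (4 * k' + c')) := by
      have h3 : 4 ^ l * (4 * k + c) = 4 ^ l * (4 * (4 ^ d * (4 * k' + c'))) := by
        rw [h]; ring
      exact Nat.eq_of_mul_eq_mul_left (by positivity) h3
    omega
  · subst hl
    have h2 := Nat.eq_of_mul_eq_mul_left (by positivity) h
    omega
  · exfalso
    obtain ⟨d, rfl⟩ := Nat.exists_eq_add_of_lt hl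
    have h2 : 4 * k' + c' = 4 * (4 ^ d * (4 * k + c)) := by
      have h3 : 4 ^ l' * (4 * k' + c') = 4 ^ l' * (4 * (4 ^ d * (4 * k + c))) := by
        rw [← h]; ring
      exact Nat.eq_of_mul_eq_mul_left (by positivity) h3
    omega

theorem sp_succ {c : ℕ} (hc : 1 ≤ c) (l k : ℕ) : sp c l k + 1 = 4 ^ l * (4 * k + c) := by
  unfold sp
  have : 0 < 4 ^ l * (4 * k + c) := by positivity
  omega

theorem pos_div {N : ℕ} (hN : 0 < N) (c l m : ℕ) : pos N c l m / N = sp c l (m / N) := by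
  unfold pos
  rw [Nat.mul_add_div hN, Nat.div_eq_of_lt (Nat.mod_lt _ hN), Nat.add_zero]

theorem pos_mod {N : ℕ} (c l m : ℕ) : pos N c l m % N = m % N := by
  unfold pos
  rw [Nat.mul_add_mod, Nat.mod_mod]

theorem pos_unique {N : ℕ} (hN : 0 < N) {c c' l l' m m' : ℕ} (hc : 1 ≤ c) (hc3 : c ≤ 3)
    (hc' : 1 ≤ c') (hc3' : c' ≤ 3) (h : pos N c l m = pos N c' l' m') :
    l = l' ∧ m = m' ∧ c = c' := by
  have h1 : sp c l (m / N) = sp c' l' (m' / N) := by rw [← pos_div hN, h, pos_div hN]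
  have h2 : m % N = m' % N := by rw [← pos_mod c l m, h, pos_mod]
  have h3 : 4 ^ l * (4 * (m / N) + c) = 4 ^ l' * (4 * (m' / N) + c') := by
    rw [← sp_succ hc, ← sp_succ hc', h1]
  obtain ⟨e1, e2, e3⟩ := four_unique hc hc3 hc' hc3' h3
  refine ⟨e1, ?_, e3⟩
  rw [← Nat.div_add_mod m N, ← Nat.div_add_mod m' N, e2, h2]

theorem Inj_pos {N : ℕ} (hN : 0 < N) {c : ℕ} (hc : 1 ≤ c) (hc3 : c ≤ 3) : Inj (pos N c) := by
  intro l m l' m' h
  obtain ⟨h1, h2, -⟩ := pos_unique hN hc hc3 hc hc3 h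
  exact ⟨h1, h2⟩

theorem block_lt {N : ℕ} (hN : 0 < N) {a b : ℕ} (h : a / N < b / N) : a < b := by
  by_contra hab
  have := Nat.div_le_div_right (c := N) (not_lt.1 hab)
  omega

theorem StrictMono_pos {N : ℕ} (hN : 0 < N) {c : ℕ} (hc : 1 ≤ c) (l : ℕ) :
    StrictMono (pos N c l) := by
  intro m m' h
  rcases lt_or_ge (m / N) (m' / N) with h1 | h1
  · apply block_lt hN
    rw [pos_div hN, pos_div hN]
    have h2 := sp_succ hc l (m / N)
    have h3 := sp_succ hc l (m' / N)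
    have h4 : 4 ^ l * (4 * (m / N) + c) < 4 ^ l * (4 * (m' / N) + c) := by
      apply Nat.mul_lt_mul_of_pos_left _ (by positivity)
      omega
    omega
  · have h2 : m / N = m' / N := le_antisymm (Nat.div_le_div_right h.le) h1
    unfold pos
    rw [h2]
    have h3 := Nat.div_add_mod m N
    have h4 := Nat.div_add_mod m' N
    rw [h2] at h3
    omega

theorem phiF_div {N : ℕ} (hN : 0 < N) (m : ℕ) : phiF N m / N = 4 * (m / N) := by
  unfold phiF
  rw [show 4 * N * (m / N) = N * (4 * (m / N)) by ring, Nat.mul_add_div hN,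
    Nat.div_eq_of_lt (Nat.mod_lt _ hN), Nat.add_zero]

theorem phiF_mod {N : ℕ} (m : ℕ) : phiF N m % N = m % N := by
  unfold phiF
  rw [show 4 * N * (m / N) = N * (4 * (m / N)) by ring, Nat.mul_add_mod, Nat.mod_mod]

theorem phiF_inj {N : ℕ} (hN : 0 < N) : Function.Injective (phiF N) := by
  intro m m' h
  have h1 : 4 * (m / N) = 4 * (m' / N) := by rw [← phiF_div hN, h, phiF_div hN]
  have h2 : m % N = m' % N := by rw [← phiF_mod, h, phiF_mod]
  rw [← Nat.div_add_mod m N, ← Nat.div_add_mod m' N, h2]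
  congr 2
  omega

theorem pos_zero_eq {N : ℕ} : pos N 1 0 = phiF N := by
  funext m
  unfold pos sp phiF
  simp
  ring

theorem emb_congr {φ ψ : ℕ → ℕ} (h : φ = ψ) (hφ : Function.Injective φ)
    (hψ : Function.Injective ψ) (A : Op) : emb φ hφ A = emb ψ hψ A := by
  subst h
  rfl

theorem interl_of {N : ℕ} (hN : 0 < N) (p q : ℕ → ℕ → ℕ)
    (h : ∀ l m' m, m' / N < m / N → p l m' / N < p l m / N ∧ p l m' / N < q l m / N ∧
      q l m' / N < p l m / N ∧ q l m' / N < q l m / N) : Interl N p q := by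
  intro l m' m hm
  obtain ⟨h1, h2, h3, h4⟩ := h l m' m hm
  exact ⟨block_lt hN h1, block_lt hN h2, block_lt hN h3, block_lt hN h4⟩

/-- The class of upper triangular operators with norm and inverse norm at most `κ`. -/
def Cls (κ : ℝ) (A : Op) : Prop :=
  UT A ∧ ‖A‖ ≤ κ ∧ ∃ A' : Op, A * A' = 1 ∧ A' * A = 1 ∧ ‖A'‖ ≤ κ

/-- **The swindle.** -/
theorem swindle (N : ℕ) (hN : 0 < N) (κ : ℝ) (n₀ : ℕ)
    (move : ∀ A : Op, Cls κ A → ∃ A' g : Op, Cls κ A' ∧ BS N (A' - 1) ∧ Triv n₀ g ∧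
      A = g * emb (phiF N) (phiF_inj hN) A') :
    ∃ n : ℕ, ∀ A : Op, Cls κ A → Triv n (emb (phiF N) (phiF_inj hN) A) := by
  obtain ⟨n₁, hn₁⟩ : ∃ n₁ : ℕ, 160 * (κ + 1) ^ 2 ≤ n₁ := exists_nat_ge _
  refine ⟨n₀ + ((n₁ + 1) + (n₁ + 1)), fun A hA => ?_⟩
  choose! F G hF hS hG hFG using move
  -- the sequence
  let c : ℕ → Op := fun l => F^[l] A
  have hc0 : c 0 = A := rfl
  have hcs : ∀ l, c (l + 1) = F (c l) := fun l => Function.iterate_succ_apply' F l A
  have hcls : ∀ l, Cls κ (c l) := by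
    intro l
    induction l with
    | zero => exact hA
    | succ l ih => rw [hcs]; exact hF _ ih
  have hBS : ∀ l, BS N (c (l + 1) - 1) := fun l => by rw [hcs]; exact hS _ (hcls l)
  have hrel : ∀ l, c l = G (c l) * emb (phiF N) (phiF_inj hN) (c (l + 1)) := fun l => by
    rw [hcs]; exact hFG _ (hcls l)
  have hTr : ∀ l, Triv n₀ (G (c l)) := fun l => hG _ (hcls l)
  choose d hd1 hd2 hd3 using fun l => (hcls l).2.2
  have hbc : Bd c := ⟨κ, fun l => (hcls l).2.1⟩
  have hbd : Bd d := ⟨κ, hd3⟩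
  have hUd : ∀ l, UT (d l) := fun l => UT_inv (hcls l).1 (hd1 l) (hd2 l)
  let cp : ℕ → Op := fun l => c (l + 1)
  let dp : ℕ → Op := fun l => d (l + 1)
  have hbcp : Bd cp := ⟨κ, fun l => (hcls (l + 1)).2.1⟩
  -- positions
  have hI := Inj_pos hN (c := 1) le_rfl (by norm_num)
  have hJ := Inj_pos hN (c := 2) (by norm_num) (by norm_num)
  have hphi := phiF_inj hN
  -- step 1
  have hbG : Bd (fun l => G (c l)) := ⟨2 ^ n₀, fun l => Triv_norm (hTr l)⟩
  have hbE : Bd (fun l => emb (phiF N) hphi (cp l)) := by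
    refine ⟨κ + 1 + 1, fun l => ?_⟩
    calc ‖emb (phiF N) hphi (cp l)‖ = ‖(emb (phiF N) hphi (cp l) - 1) + 1‖ := by
          rw [sub_add_cancel]
      _ ≤ ‖emb (phiF N) hphi (cp l) - 1‖ + ‖(1 : Op)‖ := norm_add_le _ _
      _ ≤ ‖cp l - 1‖ + 1 := add_le_add (norm_emb_sub_one_le _ _ _) norm_one_le
      _ ≤ (κ + 1) + 1 := by
          gcongr
          exact (norm_sub_le _ _).trans (add_le_add (hcls (l + 1)).2.1 norm_one_le)
  have s1 : ds (pos N 1) hI c = ds (pos N 1) hI (fun l => G (c l)) *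
      ds (fun l m => pos N 1 l (phiF N m)) (Inj_comp hI hphi) cp := by
    rw [← ds_emb (pos N 1) hI (phiF N) hphi hbcp, ← ds_mul (pos N 1) hI hbG hbE]
    congr 1
    funext l
    exact hrel l
  have t1 : Triv n₀ (ds (pos N 1) hI (fun l => G (c l))) :=
    Triv_ds _ _ (fun l => StrictMono_pos hN le_rfl l) n₀ hTr
  -- step 2
  have hpow : ∀ l : ℕ, 4 ^ (l + 1) = 4 * 4 ^ l := fun l => by ring
  have hx : ∀ (l k : ℕ), sp 1 l (4 * k) + 1 = 4 ^ l * (16 * k + 1) := fun l k => by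
    rw [sp_succ le_rfl]; ring
  have hy : ∀ (l k : ℕ), sp 2 (l + 1) k + 1 = 4 ^ l * (16 * k + 8) := fun l k => by
    rw [sp_succ (by norm_num)]; ring
  have hz : ∀ (l k : ℕ), sp 1 (l + 1) k + 1 = 4 ^ l * (16 * k + 4) := fun l k => by
    rw [sp_succ le_rfl]; ring
  have hlt : ∀ (l k k' a b : ℕ), k' < k → 1 ≤ a → a < 16 → b < 16 →
      4 ^ l * (16 * k' + b) < 4 ^ l * (16 * k + a) := by
    intro l k k' a b hk ha _ hb
    apply Nat.mul_lt_mul_of_pos_left _ (by positivity)
    omega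
  obtain ⟨g2, hg2, e2⟩ := rotation N (fun l m => pos N 1 l (phiF N m))
    (fun l m => pos N 2 (l + 1) m) (Inj_comp hI hphi) (Inj_succ hJ)
    (fun l m l' m' h => by
      have := (pos_unique hN le_rfl (by norm_num) (by norm_num) (by norm_num) h).2.2
      omega)
    (interl_of hN _ _ (by
      intro l m' m hm
      simp only [pos_div hN, phiF_div hN]
      have a1 := hx l (m / N)
      have a2 := hx l (m' / N)
      have b1 := hy l (m / N)
      have b2 := hy l (m' / N)
      have c1 := hlt l (m / N) (m' / N) 1 1 hm (by norm_num) (by norm_num) (by norm_num)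
      have c2 := hlt l (m / N) (m' / N) 8 1 hm (by norm_num) (by norm_num) (by norm_num)
      have c3 := hlt l (m / N) (m' / N) 1 8 hm (by norm_num) (by norm_num) (by norm_num)
      have c4 := hlt l (m / N) (m' / N) 8 8 hm (by norm_num) (by norm_num) (by norm_num)
      omega))
    κ (n₁ + 1) (by omega) (by push_cast; linarith)
    (B := cp) (B' := dp) (fun l => (hcls (l + 1)).2.1) (fun l => hd3 (l + 1))
    (fun l => hd1 (l + 1)) (fun l => hd2 (l + 1)) (fun l => hUd (l + 1)) (fun l => hBS l)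
  -- step 3
  obtain ⟨g3, hg3, e3⟩ := rotation N (fun l m => pos N 2 (l + 1) m)
    (fun l m => pos N 1 (l + 1) m) (Inj_succ hJ) (Inj_succ hI)
    (fun l m l' m' h => by
      have := (pos_unique hN (by norm_num) (by norm_num) le_rfl (by norm_num) h).2.2
      omega)
    (interl_of hN _ _ (by
      intro l m' m hm
      simp only [pos_div hN]
      have a1 := hz l (m / N)
      have a2 := hz l (m' / N)
      have b1 := hy l (m / N)
      have b2 := hy l (m' / N)
      have c1 := hlt l (m / N) (m' / N) 4 4 hm (by norm_num) (by norm_num) (by norm_num)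
      have c2 := hlt l (m / N) (m' / N) 8 4 hm (by norm_num) (by norm_num) (by norm_num)
      have c3 := hlt l (m / N) (m' / N) 4 8 hm (by norm_num) (by norm_num) (by norm_num)
      have c4 := hlt l (m / N) (m' / N) 8 8 hm (by norm_num) (by norm_num) (by norm_num)
      omega))
    κ (n₁ + 1) (by omega) (by push_cast; linarith)
    (B := cp) (B' := dp) (fun l => (hcls (l + 1)).2.1) (fun l => hd3 (l + 1))
    (fun l => hd1 (l + 1)) (fun l => hd2 (l + 1)) (fun l => hUd (l + 1)) (fun l => hBS l)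
  -- the tail
  let Y := ds (fun l m => pos N 1 (l + 1) m) (Inj_succ hI) cp
  have hXY : ds (pos N 1) hI c = emb (phiF N) hphi A * Y := by
    have h1 : ds (pos N 1) hI c = ds (pos N 1) hI (fun l => if l = 0 then A else 1) *
        ds (pos N 1) hI (fun l => if l = 0 then 1 else c l) := by
      rw [← ds_mul]
      · congr 1
        funext l
        by_cases hl : l = 0
        · subst hl; simp [hc0]
        · simp [hl]
      · refine ⟨max ‖A‖ 1, fun l => ?_⟩
        show ‖if l = 0 then A else 1‖ ≤ _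
        split_ifs
        · exact le_max_left _ _
        · exact norm_one_le.trans (le_max_right _ _)
      · refine ⟨max κ 1, fun l => ?_⟩
        show ‖if l = 0 then 1 else c l‖ ≤ _
        split_ifs
        · exact norm_one_le.trans (le_max_right _ _)
        · exact ((hcls l).2.1).trans (le_max_left _ _)
    rw [h1, ds_head, ds_tail (pos N 1) hI hbc]
    congr 1
    exact emb_congr pos_zero_eq _ _ A
  have hYinv : Y * ds (fun l m => pos N 1 (l + 1) m) (Inj_succ hI) dp = 1 := by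
    show ds _ _ cp * ds _ _ dp = 1
    rw [← ds_mul _ _ hbcp ⟨κ, fun l => hd3 (l + 1)⟩, ← ds_one (fun l m => pos N 1 (l + 1) m)
      (Inj_succ hI)]
    congr 1
    funext l
    exact hd1 (l + 1)
  have hfin : emb (phiF N) hphi A = ds (pos N 1) hI (fun l => G (c l)) * (g2 * g3) := by
    have h1 : emb (phiF N) hphi A * Y = ds (pos N 1) hI (fun l => G (c l)) * (g2 * g3) * Y := by
      rw [← hXY, s1, e2, e3]
      simp only [mul_assoc]
      rfl
    have h2 := congrArg (fun T => T * ds (fun l m => pos N 1 (l + 1) m) (Inj_succ hI) dp) h1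
    simpa [mul_assoc, hYinv] using h2
  show Triv _ (emb (phiF N) hphi A)
  rw [hfin]
  exact Triv_mul t1 (Triv_mul hg2 hg3)

end

end Pool.Agent.Helper534.NS
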